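import Pool.Agent.Lib.MP_c77682_nt.DB.Pad2

set_option autoImplicit false

namespace Pool.Agent.Results.MP_c77682_nt.DiagonalBlocks

/-- Let `p` be any prime. A block `j` is a quadratic map `g_j = (x ↦ xᵀ A_{j,t} x)_t` from `ℤ_p^{N_j}` to
`ℤ_p^{s_j}`. Suppose that every block is nonsingular (every combination of its components with a unit among
its coefficients has a polar form of unit determinant) and that every block, except possibly one, is
isometric over `ℤ_p` to its negative. If the blocks have more than `4 r` variables in all, then every system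
of `r` quadratic forms over `ℚ_p` obtained from the blocks by linear maps,
`f_i(x) = ∑_j ∑_t C_{j,i,t} g_{j,t}(x_j)`, has a nontrivial zero over `ℚ_p`. -/
theorem result :
    ∀ (p : ℕ) [Fact p.Prime] (m r : ℕ) (N s : Fin m → ℕ)
      (A : (j : Fin m) → Fin (s j) → Matrix (Fin (N j)) (Fin (N j)) ℤ_[p]) (j₀ : Fin m),
      (∀ j, ∀ a : Fin (s j) → ℤ_[p], (∃ t, IsUnit (a t)) →
        IsUnit (∑ t, a t • (A j t + (A j t).transpose)).det) →
      (∀ j, j ≠ j₀ → ∃ U : Matrix (Fin (N j)) (Fin (N j)) ℤ_[p], IsUnit U.det ∧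
        ∀ t x, (U.mulVec x) ⬝ᵥ (A j t).mulVec (U.mulVec x) = -(x ⬝ᵥ (A j t).mulVec x)) →
      4 * r < ∑ j, N j →
      ∀ C : (j : Fin m) → Fin r → Fin (s j) → ℚ_[p],
        ∃ x : (j : Fin m) → Fin (N j) → ℚ_[p], x ≠ 0 ∧
          ∀ i, ∑ j, ∑ t, C j i t * ∑ u, ∑ v, (A j t u v : ℚ_[p]) * x j u * x j v = 0 := by
  intro p hp m r N s A j₀ hns hsym hn C
  exact MPc77682.DB.main_padic p N s A hns j₀ hsym hn C

end Pool.Agent.Results.MP_c77682_nt.DiagonalBlocks
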