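import Pool.Agent.Lib.MP_c77682_nt.B.Main2

set_option autoImplicit false

namespace Pool.Agent.Results.MP_c77682_nt.GoldenBound

/-- For every prime `p` and all `r`, `n` with `4 * r < n` and `2 * fib (2 * r + 3) ≤ p`, any `r`
quadratic forms over the `p`-adic numbers in `n` variables have a common nontrivial zero. -/
theorem result :
    ∀ (p : ℕ) [Fact p.Prime] (r n : ℕ), 4 * r < n → 2 * Nat.fib (2 * r + 3) ≤ p →
      ∀ f : Fin r → QuadraticForm ℚ_[p] (Fin n → ℚ_[p]),
        ∃ x : Fin n → ℚ_[p], x ≠ 0 ∧ ∀ i : Fin r, f i x = 0 := by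
  intro p hp r n hn h f
  exact QSys.main_padic2 p r n hn h f

end Pool.Agent.Results.MP_c77682_nt.GoldenBound
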