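import Pool.Agent.Lib.MP_c77682_nt.L.Fin

set_option autoImplicit false

namespace Pool.Agent.Results.MP_c77682_nt.LinearBound

/-- For every prime `p` and all `r`, `n` with `0 < n` and `n ≥ 18 r` (or `n ≥ 16 r` if `p` is odd), any `r`
quadratic forms over the `p`-adic numbers in `n` variables have a common nontrivial zero. -/
theorem result :
    ∀ (p : ℕ) [Fact p.Prime] (r n : ℕ), 0 < n → ((p ≠ 2 ∧ 16 * r ≤ n) ∨ 18 * r ≤ n) →
      ∀ f : Fin r → QuadraticForm ℚ_[p] (Fin n → ℚ_[p]),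
        ∃ x : Fin n → ℚ_[p], x ≠ 0 ∧ ∀ i : Fin r, f i x = 0 := by
  intro p hp r n hn h f
  exact QL.main_padic p r n hn h f

end Pool.Agent.Results.MP_c77682_nt.LinearBound
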