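import Pool.Agent.Lib.MP_c77682_nt.B.Main3

set_option autoImplicit false

namespace Pool.Agent.Results.MP_c77682_nt.PolyPrime

/-- For every prime `p` and all `r`, `s`, `n` with `1 ≤ s`, `4 * r + s ≤ n` and
`(s + 5) ^ (8 * r + 2 * s) ≤ p ^ s`, any `r` quadratic forms over the `p`-adic numbers in `n`
variables have a common nontrivial zero. -/
theorem result :
    ∀ (p : ℕ) [Fact p.Prime] (r s n : ℕ), 1 ≤ s → 4 * r + s ≤ n →
      (s + 5) ^ (8 * r + 2 * s) ≤ p ^ s →
      ∀ f : Fin r → QuadraticForm ℚ_[p] (Fin n → ℚ_[p]),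
        ∃ x : Fin n → ℚ_[p], x ≠ 0 ∧ ∀ i : Fin r, f i x = 0 := by
  intro p hp r s n hs hn h f
  exact QSys.main_padic3 p r s n hs hn h f

end Pool.Agent.Results.MP_c77682_nt.PolyPrime
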